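import Pool.Agent.H237R2.CB.Height
import Pool.Agent.NPC.Num
import Pool.Agent.NPC.Hard

/-!
# The algorithm for list 3-colouring of chordal bipartite graphs, and its correctness
-/

namespace Pool.Agent.H237R2.CB

/-- An instance of LIST 3-COLORING: the lists of colours of the vertices `0, 1, ..., n - 1` (the
colours are the numbers `0, 1, 2`), and a list of edges. -/
abbrev Inst := List (List ℕ) × List (ℕ × ℕ)

/-- The graph with vertices `0, 1, ..., n - 1` given by a list of edges. -/
def gr (n : ℕ) (E : List (ℕ × ℕ)) : SimpleGraph (Fin n) where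
  Adj u v := u ≠ v ∧ ((u.1, v.1) ∈ E ∨ (v.1, u.1) ∈ E)
  symm := ⟨fun _ _ h => ⟨h.1.symm, h.2.symm⟩⟩
  loopless := ⟨fun _ h => h.1 rfl⟩

/-- The graph of an instance.  Its vertices are the `n` indices of the list of lists of colours. -/
def graph (I : Inst) : SimpleGraph (Fin I.1.length) := gr I.1.length I.2

/-- The instance has a colouring with colours `0, 1, 2` respecting the lists. -/
def ListColorable (I : Inst) : Prop :=
  ∃ c : Fin I.1.length → Fin 3, (∀ u v, (graph I).Adj u v → c u ≠ c v) ∧
    ∀ v, (c v).1 ∈ I.1.get v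

/-- The neighbours of a vertex (and the vertex itself if there is a loop in the list). -/
def nbr (E : List (ℕ × ℕ)) (u : ℕ) : List ℕ :=
  (E.filter (fun e => decide (e.1 = u))).map Prod.snd ++
    (E.filter (fun e => decide (e.2 = u))).map Prod.fst

theorem mem_nbr {E : List (ℕ × ℕ)} {u w : ℕ} : w ∈ nbr E u ↔ (u, w) ∈ E ∨ (w, u) ∈ E := by
  simp only [nbr, List.mem_append, List.mem_map, List.mem_filter, decide_eq_true_eq, Prod.exists]
  constructor
  · rintro (⟨a, b, ⟨h, rfl⟩, rfl⟩ | ⟨a, b, ⟨h, rfl⟩, rfl⟩)
    · exact Or.inl h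
    · exact Or.inr h
  · rintro (h | h)
    · exact Or.inl ⟨u, w, ⟨h, rfl⟩, rfl⟩
    · exact Or.inr ⟨w, u, ⟨h, rfl⟩, rfl⟩

/-- The two heights of a vertex in a state. -/
def gt (s : List (ℕ × ℕ)) (u : ℕ) (b : Bool) : ℕ :=
  bif b then (s.getD u (0, 0)).2 else (s.getD u (0, 0)).1

/-- The parity prescribed for the two copies of a vertex. -/
def par (b : Bool) : ℕ := bif b then 1 else 0

/-- A height that violates a constraint. -/
def bad (I : Inst) (s : List (ℕ × ℕ)) (u : ℕ) (b : Bool) : Bool :=
  !(decide (gt s u b % 2 = par b)) || (!(decide (gt s u b % 3 ∈ I.1.getD u [])) ||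
    (nbr I.2 u).any (fun w => decide (w < I.1.length) && (!(decide (w = u)) &&
      decide (gt s w (!b) + 1 < gt s u b))))

/-- Lower a height by one if it violates a constraint. -/
def upd (I : Inst) (s : List (ℕ × ℕ)) (u : ℕ) (b : Bool) : ℕ :=
  bif bad I s u b then gt s u b - 1 else gt s u b

/-- One step of the algorithm. -/
def step (I : Inst) (s : List (ℕ × ℕ)) : List (ℕ × ℕ) :=
  (List.range I.1.length).map fun u => (upd I s u false, upd I s u true)

/-- The starting height. -/
def top (I : Inst) : ℕ := 7 * I.1.length + 6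

/-- The starting state. -/
def init (I : Inst) : List (ℕ × ℕ) := (List.range I.1.length).map fun _ => (top I, top I)

/-- The number of steps. -/
def steps (I : Inst) : ℕ := I.1.length * (2 * top I) + 1

/-- The algorithm. -/
def alg (I : Inst) : Bool :=
  (List.range I.1.length).all fun u =>
    !(bad I ((step I)^[steps I] (init I)) u false) && !(bad I ((step I)^[steps I] (init I)) u true)

section Lemmas

variable {I : Inst} {s : List (ℕ × ℕ)} {u : ℕ} {b : Bool}

theorem gt_map_range (f : ℕ → ℕ × ℕ) {n : ℕ} (hu : u < n) :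
    gt ((List.range n).map f) u b = bif b then (f u).2 else (f u).1 := by
  unfold gt
  have : ((List.range n).map f).getD u (0, 0) = f u := by
    rw [List.getD_eq_getElem?_getD, List.getElem?_map, List.getElem?_range hu]
    rfl
  rw [this]

theorem gt_step (hu : u < I.1.length) : gt (step I s) u b = upd I s u b := by
  unfold step
  rw [gt_map_range _ hu]
  cases b <;> rfl

theorem gt_init (hu : u < I.1.length) : gt (init I) u b = top I := by
  unfold init
  rw [gt_map_range _ hu]
  cases b <;> rfl

theorem bad_eq_false : bad I s u b = false ↔ gt s u b % 2 = par b ∧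
    gt s u b % 3 ∈ I.1.getD u [] ∧ ∀ w, w < I.1.length → w ≠ u → ((u, w) ∈ I.2 ∨ (w, u) ∈ I.2) →
      gt s u b ≤ gt s w (!b) + 1 := by
  unfold bad
  rw [Bool.or_eq_false_iff, Bool.or_eq_false_iff, Bool.not_eq_false', Bool.not_eq_false',
    decide_eq_true_eq, decide_eq_true_eq, List.any_eq_false]
  refine and_congr Iff.rfl (and_congr Iff.rfl ⟨fun h w hw hwu he => ?_, fun h w hw => ?_⟩)
  · have := h w (mem_nbr.2 he)
    simp only [Bool.and_eq_true, decide_eq_true_eq, Bool.not_eq_true', decide_eq_false_iff_not,
      not_and, not_lt] at this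
    exact this hw hwu
  · simp only [Bool.and_eq_true, decide_eq_true_eq, Bool.not_eq_true', decide_eq_false_iff_not,
      not_and, not_lt]
    exact fun h1 h2 => h w h1 h2 (mem_nbr.1 hw)

end Lemmas

/-- A solution of the height constraints, for the two copies of each vertex. -/
structure Sol (I : Inst) (H : ℕ → Bool → ℕ) : Prop where
  parity : ∀ u < I.1.length, ∀ b, H u b % 2 = par b
  list : ∀ u < I.1.length, ∀ b, H u b % 3 ∈ I.1.getD u []
  edge : ∀ u < I.1.length, ∀ w < I.1.length, w ≠ u → ((u, w) ∈ I.2 ∨ (w, u) ∈ I.2) → ∀ b,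
    H u b ≤ H w (!b) + 1

theorem Sol.of_good {I : Inst} {s : List (ℕ × ℕ)} (h : ∀ u < I.1.length, ∀ b, bad I s u b = false) :
    Sol I (gt s) :=
  ⟨fun u hu b => (bad_eq_false.1 (h u hu b)).1, fun u hu b => (bad_eq_false.1 (h u hu b)).2.1,
    fun u hu w hw hwu he b => (bad_eq_false.1 (h u hu b)).2.2 w hw hwu he⟩

/-- A solution of the height constraints gives a list colouring, if the graph is bipartite. -/
theorem Sol.colorable {I : Inst} {H : ℕ → Bool → ℕ} (hH : Sol I H) (hb : (graph I).Colorable 2) :
    ListColorable I := by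
  obtain ⟨C⟩ := hb
  let P : Fin I.1.length → Bool := fun v => decide (C v = 1)
  have hP : ∀ u v, (graph I).Adj u v → P v = !(P u) := by
    intro u v huv
    have h := C.valid huv
    simp only [P]
    generalize C u = x at h
    generalize C v = y at h
    revert x y
    decide
  refine ⟨fun v => ⟨H v.1 (P v) % 3, Nat.mod_lt _ (by norm_num)⟩, fun u v huv heq => ?_, fun v => ?_⟩
  · have h1 := hP u v huv
    have hadj := huv
    obtain ⟨hne, he⟩ := hadj
    have hne' : u.1 ≠ v.1 := fun h => hne (Fin.ext h)
    have e1 := hH.edge u.1 u.2 v.1 v.2 hne'.symm he (P u)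
    have e2 := hH.edge v.1 v.2 u.1 u.2 hne' he.symm (P v)
    have p1 := hH.parity u.1 u.2 (P u)
    have p2 := hH.parity v.1 v.2 (P v)
    simp only [Fin.mk.injEq] at heq
    rw [h1] at e2 p2 heq
    rw [Bool.not_not] at e2
    cases hPu : P u <;> rw [hPu] at e1 e2 p1 p2 heq <;> simp only [par, Bool.not_true,
      Bool.not_false, cond_true, cond_false] at e1 e2 p1 p2 heq <;> omega
  · have := hH.list v.1 v.2 (P v)
    simpa [List.getD_eq_getElem?_getD, List.getElem?_eq_getElem v.2] using this

/-- A list colouring of a chordal bipartite graph gives a bounded solution of the height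
constraints. -/
theorem exists_sol {I : Inst} (hG : NoLong (graph I)) (hI : ListColorable I) :
    ∃ H, Sol I H ∧ ∀ u < I.1.length, ∀ b, H u b ≤ top I := by
  obtain ⟨c, hc, hl⟩ := hI
  have hc' : ∀ u v, (graph I).Adj u v → ((c u).1 : ZMod 3) ≠ ((c v).1 : ZMod 3) := by
    intro u v huv h
    refine hc u v huv (Fin.ext ?_)
    have := (ZMod.natCast_eq_natCast_iff' _ _ 3).1 h
    have h1 := (c u).2
    have h2 := (c v).2
    omega
  obtain ⟨h, h1, h2, h3⟩ := exists_height (c := fun v => ((c v).1 : ZMod 3)) hG hc'
  rw [Fintype.card_fin] at h3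
  -- the shifted heights
  let m : ℕ → ℕ := fun u => if hu : u < I.1.length then (h ⟨u, hu⟩ + 6 * I.1.length).toNat else 0
  have hm : ∀ u (hu : u < I.1.length), (m u : ℤ) = h ⟨u, hu⟩ + 6 * I.1.length := by
    intro u hu
    simp only [m, hu, dif_pos]
    rw [Int.toNat_of_nonneg]
    have := (h3 ⟨u, hu⟩).1
    omega
  have hm3 : ∀ u (hu : u < I.1.length), m u % 3 = (c ⟨u, hu⟩).1 := by
    intro u hu
    have e1 := h1 ⟨u, hu⟩
    have e2 : ((m u : ℕ) : ZMod 3) = (((c ⟨u, hu⟩).1 : ℕ) : ZMod 3) := by
      have : ((m u : ℤ) : ZMod 3) = ((h ⟨u, hu⟩ + 6 * I.1.length : ℤ) : ZMod 3) := by rw [hm u hu]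
      push_cast at this
      rw [this, e1, show (6 : ZMod 3) = 0 from rfl]
      ring
    have e3 := (ZMod.natCast_eq_natCast_iff' _ _ 3).1 e2
    rw [e3, Nat.mod_eq_of_lt (c ⟨u, hu⟩).2]
  refine ⟨fun u b => if m u % 2 = par b then m u else m u + 3, ⟨?_, ?_, ?_⟩, ?_⟩
  · intro u hu b
    have hpar : par b = 0 ∨ par b = 1 := by cases b <;> simp [par]
    split_ifs with hh
    · exact hh
    · omega
  · intro u hu b
    have e : (if m u % 2 = par b then m u else m u + 3) % 3 = m u % 3 := by
      split_ifs <;> omega
    rw [e, hm3 u hu]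
    have := hl ⟨u, hu⟩
    simpa [List.getD_eq_getElem?_getD, List.getElem?_eq_getElem hu] using this
  · intro u hu w hw hwu he b
    have hadj : (graph I).Adj ⟨u, hu⟩ ⟨w, hw⟩ := ⟨fun h => hwu (by simpa using h.symm), he⟩
    have e1 := h2 _ _ hadj
    have e2 := hm u hu
    have e3 := hm w hw
    have e4 : m w = m u + 1 ∨ m u = m w + 1 := by omega
    have key : ∀ p q : ℕ, (p = 0 ∧ q = 1 ∨ p = 1 ∧ q = 0) →
        (if m u % 2 = p then m u else m u + 3) ≤ (if m w % 2 = q then m w else m w + 3) + 1 := by
      intro p q hpq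
      split_ifs <;> omega
    cases b
    · exact key 0 1 (Or.inl ⟨rfl, rfl⟩)
    · exact key 1 0 (Or.inr ⟨rfl, rfl⟩)
  · intro u hu b
    have e1 := hm u hu
    have e2 := (h3 ⟨u, hu⟩).2
    have : m u ≤ 7 * I.1.length + 2 := by omega
    simp only [top]
    split_ifs <;> omega

/-- The invariant of the algorithm: the state stays above every bounded solution. -/
theorem above {I : Inst} {H : ℕ → Bool → ℕ} (hH : Sol I H)
    (hb : ∀ u < I.1.length, ∀ b, H u b ≤ top I) (k : ℕ) :
    ∀ u < I.1.length, ∀ b, H u b ≤ gt ((step I)^[k] (init I)) u b := by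
  induction k with
  | zero =>
    intro u hu b
    rw [Function.iterate_zero, id, gt_init hu]
    exact hb u hu b
  | succ k ih =>
    intro u hu b
    rw [Function.iterate_succ_apply', gt_step hu]
    set s := (step I)^[k] (init I)
    unfold upd
    cases hbad : bad I s u b with
    | false => simpa using ih u hu b
    | true =>
      rw [cond_true]
      have h1 := ih u hu b
      by_contra hcon
      have heq : gt s u b = H u b := by omega
      have : bad I s u b = false := by
        rw [bad_eq_false, heq]
        refine ⟨hH.parity u hu b, hH.list u hu b, fun w hw hwu he => ?_⟩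
        exact (hH.edge u hu w hw hwu he b).trans (Nat.succ_le_succ (ih w hw (!b)))
      rw [this] at hbad
      exact Bool.false_ne_true hbad

/-- The sum of all heights of a state. -/
def tot (I : Inst) (s : List (ℕ × ℕ)) : ℕ :=
  ∑ u ∈ Finset.range I.1.length, (gt s u false + gt s u true)

theorem upd_le (I : Inst) (s : List (ℕ × ℕ)) (u : ℕ) (b : Bool) : upd I s u b ≤ gt s u b := by
  unfold upd
  cases bad I s u b
  · exact le_rfl
  · exact Nat.sub_le _ _

theorem tot_step {I : Inst} {s : List (ℕ × ℕ)} {u : ℕ} (hu : u < I.1.length) {b : Bool}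
    (h : bad I s u b = true) (hpos : 0 < gt s u b) : tot I (step I s) + 1 ≤ tot I s := by
  unfold tot
  have h1 : ∑ x ∈ Finset.range I.1.length, (gt (step I s) x false + gt (step I s) x true) <
      ∑ x ∈ Finset.range I.1.length, (gt s x false + gt s x true) := by
    refine Finset.sum_lt_sum (fun x hx => ?_) ⟨u, Finset.mem_range.2 hu, ?_⟩
    · rw [Finset.mem_range] at hx
      rw [gt_step hx, gt_step hx]
      exact Nat.add_le_add (upd_le _ _ _ _) (upd_le _ _ _ _)
    · rw [gt_step hu, gt_step hu]
      have hb : upd I s u b < gt s u b := by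
        unfold upd
        rw [h, cond_true]
        omega
      cases b
      · exact Nat.add_lt_add_of_lt_of_le hb (upd_le _ _ _ _)
      · exact Nat.add_lt_add_of_le_of_lt (upd_le _ _ _ _) hb
  exact h1

theorem tot_init (I : Inst) : tot I (init I) = I.1.length * (2 * top I) := by
  unfold tot
  rw [Finset.sum_congr rfl (g := fun _ => 2 * top I)]
  · simp
  · intro u hu
    rw [Finset.mem_range] at hu
    rw [gt_init hu, gt_init hu]
    ring

/-- If all heights are good, the state does not change any more. -/
theorem good_step {I : Inst} {s : List (ℕ × ℕ)} (h : ∀ u < I.1.length, ∀ b, bad I s u b = false) :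
    ∀ u < I.1.length, ∀ b, bad I (step I s) u b = false := by
  have h1 : ∀ u < I.1.length, ∀ b, gt (step I s) u b = gt s u b := by
    intro u hu b
    rw [gt_step hu]
    unfold upd
    rw [h u hu b]
    rfl
  intro u hu b
  have h2 := bad_eq_false.1 (h u hu b)
  rw [bad_eq_false, h1 u hu b]
  refine ⟨h2.1, h2.2.1, fun w hw hwu he => ?_⟩
  rw [h1 w hw]
  exact h2.2.2 w hw hwu he

theorem final_good {I : Inst} {H : ℕ → Bool → ℕ} (hH : Sol I H)
    (hb : ∀ u < I.1.length, ∀ b, H u b ≤ top I) :
    ∀ u < I.1.length, ∀ b, bad I ((step I)^[steps I] (init I)) u b = false := by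
  have key : ∀ k : ℕ, (∀ u < I.1.length, ∀ b, bad I ((step I)^[k] (init I)) u b = false) ∨
      tot I ((step I)^[k] (init I)) + k ≤ tot I (init I) := by
    intro k
    induction k with
    | zero => right; simp
    | succ k ih =>
      rw [Function.iterate_succ_apply']
      set s := (step I)^[k] (init I) with hs
      by_cases hgood : ∀ u < I.1.length, ∀ b, bad I s u b = false
      · exact Or.inl (good_step hgood)
      · right
        rcases ih with ih | ih
        · exact absurd ih hgood
        push Not at hgood
        obtain ⟨u, hu, b, hbad⟩ := hgood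
        have hbad' : bad I s u b = true := by simpa using hbad
        have h1 := above hH hb k u hu b
        have hpos : 0 < gt s u b := by
          by_contra hcon
          have h0 : gt s u b = 0 := by omega
          have hH0 : H u b = 0 := by rw [← hs, h0] at h1; omega
          apply hbad
          rw [bad_eq_false, h0, ← hH0]
          refine ⟨hH.parity u hu b, hH.list u hu b, fun w hw hwu he => ?_⟩
          rw [hH0]
          exact Nat.zero_le _
        have h2 := tot_step hu hbad' hpos
        omega
  rcases key (steps I) with h | h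
  · exact h
  · rw [tot_init] at h
    unfold steps at h
    omega

/-- Correctness of the algorithm on chordal bipartite graphs. -/
theorem alg_correct {I : Inst} (hb : (graph I).Colorable 2) (hG : NoLong (graph I)) :
    alg I = true ↔ ListColorable I := by
  unfold alg
  rw [List.all_eq_true]
  constructor
  · intro h
    refine (Sol.of_good (s := (step I)^[steps I] (init I)) fun u hu b => ?_).colorable hb
    have := h u (List.mem_range.2 hu)
    simp only [Bool.and_eq_true, Bool.not_eq_true'] at this
    cases b
    · exact this.1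
    · exact this.2
  · intro h u hu
    obtain ⟨H, hH, hB⟩ := exists_sol hG h
    have := final_good hH hB u (List.mem_range.1 hu)
    simp only [Bool.and_eq_true, Bool.not_eq_true']
    exact ⟨this false, this true⟩

end Pool.Agent.H237R2.CB
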