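import Pool.Agent.H237R2.CB.Lift

/-!
# Height functions of 3-colourings of chordal bipartite graphs
-/

namespace Pool.Agent.H237R2.CB

variable {V : Type*} {G : SimpleGraph V}

/-- The sum of the differences of a colouring along a walk. -/
def dw (c : V → ZMod 3) : ∀ {u v : V}, G.Walk u v → ℤ
  | _, _, .nil => 0
  | u, _, .cons (v := w) _ p => dl (c u) (c w) + dw c p

theorem dw_append (c : V → ZMod 3) : ∀ {u v w : V} (p : G.Walk u v) (q : G.Walk v w),
    dw c (p.append q) = dw c p + dw c q
  | _, _, _, .nil, q => by simp [dw]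
  | _, _, _, .cons h p, q => by
    rw [SimpleGraph.Walk.cons_append]
    simp only [dw]
    rw [dw_append c p q, add_assoc]

theorem dw_reverse {c : V → ZMod 3} (hc : ∀ u v, G.Adj u v → c u ≠ c v) :
    ∀ {u v : V} (p : G.Walk u v), dw c p.reverse = - dw c p
  | _, _, .nil => by simp [dw]
  | _, _, .cons h p => by
    rw [SimpleGraph.Walk.reverse_cons, dw_append, dw_reverse hc p]
    simp only [dw]
    rw [dl_antisymm (hc _ _ h)]
    ring

theorem dw_eq_ds (c : V → ZMod 3) : ∀ {u v : V} (p : G.Walk u v), dw c p = ds c p.getVert p.length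
  | _, _, .nil => by simp [dw, ds]
  | u, _, .cons h p => by
    simp only [dw]
    rw [dw_eq_ds c p]
    unfold ds
    rw [SimpleGraph.Walk.length_cons, Finset.sum_range_succ']
    simp only [SimpleGraph.Walk.getVert_cons_succ, SimpleGraph.Walk.getVert_zero, zero_add]
    ring

theorem dw_abs (c : V → ZMod 3) : ∀ {u v : V} (p : G.Walk u v), |dw c p| ≤ p.length
  | _, _, .nil => by simp [dw]
  | u, _, .cons (v := w) h p => by
    simp only [dw, SimpleGraph.Walk.length_cons]
    have h1 := dw_abs c p
    have h2 := dl_abs (c u) (c w)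
    rw [abs_le] at h1 ⊢
    push_cast
    constructor <;> rcases h2 with h2 | h2 <;> rw [h2] <;> linarith [h1.1, h1.2]

theorem dw_cast {c : V → ZMod 3} (hc : ∀ u v, G.Adj u v → c u ≠ c v) :
    ∀ {u v : V} (p : G.Walk u v), ((dw c p : ℤ) : ZMod 3) = c v - c u
  | _, _, .nil => by simp [dw]
  | u, _, .cons (v := w) h p => by
    simp only [dw]
    rw [Int.cast_add, dw_cast hc p, dl_cast (hc _ _ h)]
    ring

theorem dw_closed (hG : NoLong G) {c : V → ZMod 3} (hc : ∀ u v, G.Adj u v → c u ≠ c v) {u : V}
    (p : G.Walk u u) : dw c p = 0 := by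
  rw [dw_eq_ds]
  refine ds_closed hG hc _ _ ⟨fun i hi => p.adj_getVert_succ hi, ?_⟩
  rw [p.getVert_length, p.getVert_zero]

theorem dw_unique (hG : NoLong G) {c : V → ZMod 3} (hc : ∀ u v, G.Adj u v → c u ≠ c v) {u v : V}
    (p q : G.Walk u v) : dw c p = dw c q := by
  have h := dw_closed hG hc (p.append q.reverse)
  rw [dw_append, dw_reverse hc] at h
  omega

theorem exists_height [Fintype V] (hG : NoLong G) {c : V → ZMod 3}
    (hc : ∀ u v, G.Adj u v → c u ≠ c v) :
    ∃ h : V → ℤ, (∀ v, ((h v : ℤ) : ZMod 3) = c v) ∧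
      (∀ u v, G.Adj u v → h v = h u + 1 ∨ h v = h u - 1) ∧
      ∀ v, -(Fintype.card V : ℤ) ≤ h v ∧ h v ≤ Fintype.card V + 2 := by
  classical
  -- representatives
  have hr : ∀ v, G.Reachable (Quot.out (G.connectedComponentMk v)) v := fun v =>
    SimpleGraph.ConnectedComponent.exact (Quot.out_eq (G.connectedComponentMk v))
  choose p hp using fun v => (hr v).exists_isPath
  refine ⟨fun v => ((c (Quot.out (G.connectedComponentMk v))).val : ℤ) + dw c (p v), ?_, ?_, ?_⟩
  · intro v
    push_cast
    rw [dw_cast hc (p v)]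
    simp
  · intro u v huv
    have e : G.connectedComponentMk u = G.connectedComponentMk v :=
      SimpleGraph.ConnectedComponent.sound huv.reachable
    have key : ∀ (a : V) (q : G.Walk a v), a = Quot.out (G.connectedComponentMk v) →
        dw c q = dw c (p v) := by
      rintro a q rfl
      exact dw_unique hG hc _ _
    have h1 := key _ ((p u).append (SimpleGraph.Walk.cons huv SimpleGraph.Walk.nil)) (by rw [e])
    rw [dw_append] at h1
    simp only [dw, add_zero] at h1
    have h2 := dl_abs (c u) (c v)
    have h3 : ((c (Quot.out (G.connectedComponentMk u))).val : ℤ) =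
        ((c (Quot.out (G.connectedComponentMk v))).val : ℤ) := by rw [e]
    simp only
    rw [← h1, h3]
    rcases h2 with h2 | h2 <;> rw [h2]
    · left; ring
    · right; ring
  · intro v
    have h1 := dw_abs c (p v)
    have h2 := (hp v).length_lt
    have h3 := ZMod.val_lt (c (Quot.out (G.connectedComponentMk v)))
    rw [abs_le] at h1
    constructor
    · have : (0:ℤ) ≤ ((c (Quot.out (G.connectedComponentMk v))).val : ℤ) := by positivity
      have h4 : ((p v).length : ℤ) ≤ (Fintype.card V : ℤ) := by exact_mod_cast h2.le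
      simp only
      linarith [h1.1]
    · have : ((c (Quot.out (G.connectedComponentMk v))).val : ℤ) ≤ 2 := by
        have := ZMod.val_lt (c (Quot.out (G.connectedComponentMk v)))
        omega
      have h4 : ((p v).length : ℤ) ≤ (Fintype.card V : ℤ) := by exact_mod_cast h2.le
      simp only
      linarith [h1.2]

end Pool.Agent.H237R2.CB
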