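import Mathlib

/-!
# Colourings with three colours of chordal bipartite graphs lift to height functions

Every closed walk of a graph all of whose induced cycles have length four is, for the purpose of
summing the differences `±1` of a proper colouring by the integers modulo three, a combination of
closed walks of length four; the four differences along such a walk add up to zero modulo three,
hence to zero.
-/

namespace Pool.Agent.H237R2.CB

variable {V : Type*}

/-- The difference `±1` of two distinct elements of `ZMod 3`. -/
def dl (a b : ZMod 3) : ℤ := if b = a + 1 then 1 else -1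

theorem dl_antisymm {a b : ZMod 3} (h : a ≠ b) : dl a b = - dl b a := by
  revert h; revert a b; decide

theorem dl_cast {a b : ZMod 3} (h : a ≠ b) : ((dl a b : ℤ) : ZMod 3) = b - a := by
  revert h; revert a b; decide

theorem dl_abs (a b : ZMod 3) : dl a b = 1 ∨ dl a b = -1 := by
  unfold dl; split_ifs <;> simp

/-- The sum of the differences along a sequence of vertices. -/
def ds (c : V → ZMod 3) (f : ℕ → V) (n : ℕ) : ℤ := ∑ i ∈ Finset.range n, dl (c (f i)) (c (f (i + 1)))

variable {G : SimpleGraph V}

/-- A closed sequence of `n` steps in the graph. -/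
def Closed (G : SimpleGraph V) (f : ℕ → V) (n : ℕ) : Prop :=
  (∀ i < n, G.Adj (f i) (f (i + 1))) ∧ f n = f 0

/-- Induced cycles of length different from four do not exist. -/
def NoLong (G : SimpleGraph V) : Prop :=
  ∀ k : ℕ, 3 ≤ k → k ≠ 4 → IsEmpty (SimpleGraph.cycleGraph k ↪g G)

theorem ds_cast {c : V → ZMod 3} (hc : ∀ u v, G.Adj u v → c u ≠ c v) (f : ℕ → V) (n : ℕ)
    (hf : ∀ i < n, G.Adj (f i) (f (i + 1))) : ((ds c f n : ℤ) : ZMod 3) = c (f n) - c (f 0) := by
  induction n with
  | zero => simp [ds]
  | succ n ih =>
    have h1 := ih (fun i hi => hf i (by omega))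
    have h2 := dl_cast (hc _ _ (hf n (by omega)))
    unfold ds at h1 ⊢
    rw [Finset.sum_range_succ, Int.cast_add, h1, h2]
    ring

theorem ds_four {c : V → ZMod 3} (hc : ∀ u v, G.Adj u v → c u ≠ c v) (f : ℕ → V)
    (hf : Closed G f 4) : ds c f 4 = 0 := by
  have h := ds_cast hc f 4 hf.1
  rw [hf.2, sub_self] at h
  rw [ZMod.intCast_zmod_eq_zero_iff_dvd] at h
  simp only [ds, Finset.sum_range_succ, Finset.sum_range_zero] at h ⊢
  have h0 := dl_abs (c (f 0)) (c (f (0 + 1)))
  have h1 := dl_abs (c (f 1)) (c (f (1 + 1)))
  have h2 := dl_abs (c (f 2)) (c (f (2 + 1)))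
  have h3 := dl_abs (c (f 3)) (c (f (3 + 1)))
  have h' : (3 : ℤ) ∣ 0 + dl (c (f 0)) (c (f (0 + 1))) + dl (c (f 1)) (c (f (1 + 1))) +
      dl (c (f 2)) (c (f (2 + 1))) + dl (c (f 3)) (c (f (3 + 1))) := by exact_mod_cast h
  omega

theorem ds_split (c : V → ZMod 3) (f : ℕ → V) (a b d : ℕ) :
    ds c f (a + b + d) = ds c f a + ds c (fun k => f (a + k)) b + ds c (fun k => f (a + b + k)) d := by
  unfold ds
  rw [Finset.sum_range_add, Finset.sum_range_add]
  simp only [add_assoc]

theorem ds_congr (c : V → ZMod 3) {f g : ℕ → V} {n : ℕ} (h : ∀ i ≤ n, f i = g i) :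
    ds c f n = ds c g n := by
  unfold ds
  refine Finset.sum_congr rfl fun i hi => ?_
  rw [Finset.mem_range] at hi
  rw [h i (by omega), h (i + 1) (by omega)]

theorem ds_closed (hG : NoLong G) {c : V → ZMod 3} (hc : ∀ u v, G.Adj u v → c u ≠ c v) :
    ∀ (n : ℕ) (f : ℕ → V), Closed G f n → ds c f n = 0 := by
  intro n
  induction n using Nat.strong_induction_on with
  | _ n ih =>
  intro f hf
  by_cases h0 : n = 0
  · subst h0; simp [ds]
  by_cases hrep : ∃ i j, i < j ∧ j < n ∧ f i = f j
  · -- a repeated vertex
    obtain ⟨i, j, hij, hjn, hfij⟩ := hrep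
    obtain ⟨b, rfl⟩ := Nat.exists_eq_add_of_lt hij
    obtain ⟨d, rfl⟩ := Nat.exists_eq_add_of_lt hjn
    have e : i + b + 1 + d + 1 = i + (b + 1) + (d + 1) := by ring
    rw [e] at hf ⊢
    rw [ds_split]
    have c1 : Closed G (fun k => f (i + k)) (b + 1) := by
      refine ⟨fun k hk => ?_, ?_⟩
      · have := hf.1 (i + k) (by omega)
        simpa [add_assoc] using this
      · simpa [add_assoc] using hfij.symm
    have c2 : Closed G (fun k => if k ≤ i then f k else f (k + (b + 1))) (i + (d + 1)) := by
      refine ⟨fun k hk => ?_, ?_⟩
      · rcases lt_trichotomy k i with h | h | h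
        · simp only [h.le, if_true, show k + 1 ≤ i by omega]
          exact hf.1 k (by omega)
        · subst h
          simp only [le_refl, if_true, show ¬ (k + 1 ≤ k) by omega, if_false]
          rw [hfij]
          have := hf.1 (k + b + 1) (by omega)
          convert! this using 2
          ring
        · simp only [show ¬ (k ≤ i) by omega, show ¬ (k + 1 ≤ i) by omega, if_false]
          have := hf.1 (k + (b + 1)) (by omega)
          convert! this using 2
          ring
      · simp only [show ¬ (i + (d + 1) ≤ i) by omega, if_false, Nat.zero_le, if_true]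
        rw [← hf.2]
        congr 1
        ring
    have s1 := ih (b + 1) (by omega) _ c1
    have s2 := ih (i + (d + 1)) (by omega) _ c2
    have s3 : ds c (fun k => if k ≤ i then f k else f (k + (b + 1))) (i + (d + 1)) =
        ds c f i + ds c (fun k => f (i + (b + 1) + k)) (d + 1) := by
      have := ds_split c (fun k => if k ≤ i then f k else f (k + (b + 1))) i 0 (d + 1)
      rw [add_zero] at this
      rw [this]
      have e1 : ds c (fun k => if k ≤ i then f k else f (k + (b + 1))) i = ds c f i :=
        ds_congr c fun k hk => by simp [hk]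
      have e2 : ds c (fun k => (fun k => if k ≤ i then f k else f (k + (b + 1))) (i + k)) 0 = 0 := by
        simp [ds]
      have e3 : ds c (fun k => (fun k => if k ≤ i then f k else f (k + (b + 1))) (i + k)) (d + 1) =
          ds c (fun k => f (i + (b + 1) + k)) (d + 1) := by
        refine ds_congr c fun k hk => ?_
        by_cases hk0 : k = 0
        · subst hk0
          simp only [add_zero, le_refl, if_true]
          rw [hfij]; congr 1
        · simp only [show ¬ (i + k ≤ i) by omega, if_false]
          congr 1; ring
      rw [e1, e2, e3, add_zero]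
    rw [s1]
    rw [s3] at s2
    omega
  by_cases hch : ∃ i j, i + 2 ≤ j ∧ j < n ∧ j - i + 2 ≤ n ∧ G.Adj (f i) (f j)
  · -- a chord
    obtain ⟨i, j, hij, hjn, hijn, hadj⟩ := hch
    obtain ⟨b, rfl⟩ := Nat.exists_eq_add_of_le hij
    obtain ⟨d, rfl⟩ := Nat.exists_eq_add_of_lt hjn
    have e : i + 2 + b + d + 1 = i + (b + 2) + (d + 1) := by ring
    rw [e] at hf ⊢
    rw [ds_split]
    have c1 : Closed G (fun k => if k ≤ b + 2 then f (i + k) else f i) (b + 3) := by
      refine ⟨fun k hk => ?_, ?_⟩
      · by_cases h : k = b + 2
        · subst h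
          simp only [le_refl, if_true, show ¬ (b + 2 + 1 ≤ b + 2) by omega, if_false]
          have := hadj.symm
          convert! this using 2
          ring
        · simp only [show k ≤ b + 2 by omega, show k + 1 ≤ b + 2 by omega, if_true]
          have := hf.1 (i + k) (by omega)
          simpa [add_assoc] using this
      · simp
    have c2 : Closed G (fun k => if k ≤ i then f k else f (k + (b + 1))) (i + (d + 2)) := by
      refine ⟨fun k hk => ?_, ?_⟩
      · rcases lt_trichotomy k i with h | h | h
        · simp only [h.le, if_true, show k + 1 ≤ i by omega]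
          exact hf.1 k (by omega)
        · subst h
          simp only [le_refl, if_true, show ¬ (k + 1 ≤ k) by omega, if_false]
          convert! hadj using 2
          ring
        · simp only [show ¬ (k ≤ i) by omega, show ¬ (k + 1 ≤ i) by omega, if_false]
          have := hf.1 (k + (b + 1)) (by omega)
          convert! this using 2
          ring
      · simp only [show ¬ (i + (d + 2) ≤ i) by omega, if_false, Nat.zero_le, if_true]
        rw [← hf.2]
        congr 1
        ring
    have s1 := ih (b + 3) (by omega) _ c1
    have s2 := ih (i + (d + 2)) (by omega) _ c2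
    have s3 : ds c (fun k => if k ≤ b + 2 then f (i + k) else f i) (b + 3) =
        ds c (fun k => f (i + k)) (b + 2) + dl (c (f (i + (b + 2)))) (c (f i)) := by
      have h1 : ds c (fun k => if k ≤ b + 2 then f (i + k) else f i) (b + 3) =
          ds c (fun k => if k ≤ b + 2 then f (i + k) else f i) (b + 2) +
            dl (c (f (i + (b + 2)))) (c (f i)) := by
        unfold ds
        rw [Finset.sum_range_succ]
        simp
      rw [h1]
      congr 1
      exact ds_congr c fun k hk => by simp [hk]
    have s4 : ds c (fun k => if k ≤ i then f k else f (k + (b + 1))) (i + (d + 2)) =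
        ds c f i + (dl (c (f i)) (c (f (i + (b + 2)))) +
          ds c (fun k => f (i + (b + 2) + k)) (d + 1)) := by
      have h1 := ds_split c (fun k => if k ≤ i then f k else f (k + (b + 1))) i 1 (d + 1)
      have e0 : i + 1 + (d + 1) = i + (d + 2) := by ring
      rw [e0] at h1
      rw [h1]
      have e1 : ds c (fun k => if k ≤ i then f k else f (k + (b + 1))) i = ds c f i :=
        ds_congr c fun k hk => by simp [hk]
      have e2 : ds c (fun k => (fun k => if k ≤ i then f k else f (k + (b + 1))) (i + k)) 1 =
          dl (c (f i)) (c (f (i + (b + 2)))) := by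
        simp only [ds, Finset.sum_range_one, add_zero, le_refl, if_true,
          show ¬ (i + (0 + 1) ≤ i) by omega, if_false]
        congr 3
        ring
      have e3 : ds c (fun k => (fun k => if k ≤ i then f k else f (k + (b + 1))) (i + 1 + k)) (d + 1) =
          ds c (fun k => f (i + (b + 2) + k)) (d + 1) := by
        refine ds_congr c fun k hk => ?_
        simp only [show ¬ (i + 1 + k ≤ i) by omega, if_false]
        congr 1; ring
      rw [e1, e2, e3, add_assoc]
    have s5 : dl (c (f i)) (c (f (i + (b + 2)))) = - dl (c (f (i + (b + 2)))) (c (f i)) := by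
      apply dl_antisymm
      have := hc _ _ hadj
      rwa [show i + 2 + b = i + (b + 2) by ring] at this
    rw [s3] at s1
    rw [s4] at s2
    omega
  -- an induced cycle
  push Not at hrep hch
  have hinj : ∀ i j, i < n → j < n → f i = f j → i = j := by
    intro i j hi hj h
    rcases lt_trichotomy i j with h1 | h1 | h1
    · exact absurd h (hrep i j h1 hj)
    · exact h1
    · exact absurd h.symm (hrep j i h1 hi)
  by_cases h1 : n = 1
  · subst h1
    have := hf.1 0 (by omega)
    rw [show f (0 + 1) = f 0 from hf.2] at this
    exact absurd this (G.loopless.irrefl _)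
  by_cases h2 : n = 2
  · subst h2
    have a1 := hf.1 0 (by omega)
    have e : f (1 + 1) = f 0 := hf.2
    simp only [ds, Finset.sum_range_succ, Finset.sum_range_zero]
    rw [e]
    have := dl_antisymm (hc _ _ a1)
    simp only [zero_add] at this ⊢
    omega
  have hn4 : n = 4 := by
    by_contra hn4
    have key : ∀ i j : ℕ, i < j → j < n → (G.Adj (f i) (f j) ↔ j = i + 1 ∨ (i = 0 ∧ j + 1 = n)) := by
      intro i j hij hj
      constructor
      · intro hadj
        by_contra hcon
        push Not at hcon
        by_cases hji : j - i + 2 ≤ n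
        · exact hch i j (by omega) hj hji hadj
        · have : i = 0 := by omega
          exact hcon.2 this (by omega)
      · rintro (rfl | ⟨rfl, h⟩)
        · exact hf.1 i (by omega)
        · have := hf.1 j hj
          rw [h, hf.2] at this
          exact this.symm
    obtain ⟨m, rfl⟩ : ∃ m, n = m + 2 := ⟨n - 2, by omega⟩
    refine (hG (m + 2) (by omega) hn4).false ?_
    refine ⟨⟨fun i => f i.1, fun i j h => Fin.ext (hinj _ _ i.2 j.2 h)⟩, ?_⟩
    intro i j
    change G.Adj (f i.1) (f j.1) ↔ (SimpleGraph.cycleGraph (m + 2)).Adj i j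
    rw [SimpleGraph.cycleGraph_adj']
    have hi := i.2
    have hj := j.2
    have hsub : ∀ a b : Fin (m + 2), a.1 < b.1 → ((a - b).val = 1 ↔ (a.1 = 0 ∧ b.1 + 1 = m + 2)) ∧
        ((b - a).val = 1 ↔ b.1 = a.1 + 1) := by
      intro a b hab
      have ha := a.2
      have hb := b.2
      constructor
      · rw [Fin.sub_def]
        simp only
        constructor
        · intro h
          rw [Nat.mod_eq_of_lt (by omega)] at h
          omega
        · intro h
          rw [Nat.mod_eq_of_lt (by omega)]
          omega
      · rw [Fin.sub_def]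
        simp only
        have : m + 2 - a.1 + b.1 = (m + 2) + (b.1 - a.1) := by omega
        rw [this, Nat.add_mod_left, Nat.mod_eq_of_lt (by omega)]
        omega
    rcases lt_trichotomy i.1 j.1 with h | h | h
    · rw [key _ _ h hj, (hsub i j h).1, (hsub i j h).2]
      tauto
    · have : i = j := Fin.ext h
      subst this
      simp
    · rw [G.adj_comm, key _ _ h hi, (hsub j i h).1, (hsub j i h).2]
  subst hn4
  exact ds_four hc f hf

end Pool.Agent.H237R2.CB
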