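import Pool.Agent.H237R2.CB.PolyAlg
import Pool.Agent.NPC.Dec

/-!
# LIST 3-COLORING and 3-PRECOLORING EXTENSION on chordal bipartite graphs
-/

namespace Pool.Agent.H237R2.CB

open Pool.Agent.NPC Pool.Agent.NPC.H237CB

/-- Chordal bipartite graphs: bipartite, and every induced cycle has length exactly four. -/
def ChordalBipartite {V : Type} (G : SimpleGraph V) : Prop :=
  G.Colorable 2 ∧ ∀ k : ℕ, 3 ≤ k → k ≠ 4 → IsEmpty (SimpleGraph.cycleGraph k ↪g G)

/-- An instance of LIST 3-COLORING: for each of the vertices `0, 1, ..., n - 1` its list of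
colours (the colours are `0, 1, 2`), and a list of edges. -/
abbrev ListInstance := List (List ℕ) × List (ℕ × ℕ)

/-- An instance of 3-PRECOLORING EXTENSION: for each of the vertices `0, 1, ..., n - 1` its colour
(one of `0, 1, 2`) or `none` if it is not precoloured, and a list of edges. -/
abbrev PreInstance := List (Option ℕ) × List (ℕ × ℕ)

/-- The instance has a proper colouring with colours `0, 1, 2` respecting the lists. -/
def ListThreeColorable (I : ListInstance) : Prop :=
  ∃ c : Fin I.1.length → Fin 3, (∀ u v, (gr I.1.length I.2).Adj u v → c u ≠ c v) ∧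
    ∀ v, (c v).1 ∈ I.1.get v

/-- The precolouring extends to a proper colouring with colours `0, 1, 2`. -/
def PrecoloringExtends (I : PreInstance) : Prop :=
  ∃ c : Fin I.1.length → Fin 3, (∀ u v, (gr I.1.length I.2).Adj u v → c u ≠ c v) ∧
    ∀ v k, I.1.get v = some k → (c v).1 = k

theorem conv_iff (I : PreInstance) : ListThreeColorable (conv I) ↔ PrecoloringExtends I := by
  have hlen : (conv I).1.length = I.1.length := by simp [conv]
  have key : ∀ n : ℕ, n = I.1.length →
      ((∃ c : Fin n → Fin 3, (∀ u v, (gr n I.2).Adj u v → c u ≠ c v) ∧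
        ∀ v, (c v).1 ∈ (conv I).1.getD v.1 []) ↔ PrecoloringExtends I) := by
    rintro n rfl
    refine exists_congr fun c => and_congr Iff.rfl (forall_congr' fun v => ?_)
    have e : (conv I).1.getD v.1 [] = optList (I.1.get v) := by
      simp [conv, List.getD_eq_getElem?_getD]
    rw [e]
    cases h : I.1.get v with
    | none =>
      have := (c v).2
      simp [optList]
      omega
    | some k => simp [optList]
  rw [← key _ hlen]
  refine exists_congr fun c => and_congr Iff.rfl (forall_congr' fun v => ?_)
  simp [List.getD_eq_getElem?_getD]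

/-- LIST 3-COLORING on chordal bipartite graphs is solvable in polynomial time. -/
theorem list_main :
    ∃ L : Set (List Bool), InP L ∧ ∀ I : ListInstance, ChordalBipartite (gr I.1.length I.2) →
      (bits I ∈ L ↔ ListThreeColorable I) := by
  refine ⟨lang (fun I : ListInstance => alg I = true), inPP_of H237CB.poly_alg fun _ => Iff.rfl,
      fun I hI => ?_⟩
  rw [bits_mem_lang]
  exact alg_correct hI.1 hI.2

/-- 3-PRECOLORING EXTENSION on chordal bipartite graphs is solvable in polynomial time. -/
theorem pre_main :
    ∃ L : Set (List Bool), InP L ∧ ∀ I : PreInstance, ChordalBipartite (gr I.1.length I.2) →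
      (bits I ∈ L ↔ PrecoloringExtends I) := by
  refine ⟨lang (fun I : PreInstance => alg (conv I) = true), inPP_of H237CB.poly_algConv
    fun _ => Iff.rfl, fun I hI => ?_⟩
  rw [bits_mem_lang, ← conv_iff]
  have hlen : (conv I).1.length = I.1.length := by simp [conv]
  have h : ∀ n : ℕ, n = I.1.length → ChordalBipartite (gr n I.2) := by
    rintro n rfl
    exact hI
  have hI' := h _ hlen
  exact alg_correct (I := conv I) hI'.1 hI'.2

end Pool.Agent.H237R2.CB
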